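import Pool.Agent.T63.WA.Base

/-!
# Weak approximation on the varieties `N_{Kᵢ/ℚ}(zᵢ) = cᵢ (f(t) + k)`, `Kᵢ` cyclic, for integer parts `k` of linear forms

Let `f` be an integral polynomial of degree at least two in any number of variables, let the `cᵢ` be nonzero integers, and let
the `Kᵢ` be cyclic number fields (subfields of a given cyclotomic field) with class numbers prime to their degrees, such that
`-1` is a norm or all norms are nonnegative. There are finite sets `T₀(K, f, c)` of primes such that for every sequence
`a_0, a_1, …` of linear forms in `d` variables with norms `≥ exp (n ^ δ)` for large `n`, `δ > 0`, of which nothing else is known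
(for `d = 1`: `a_n` may be any sequence of real numbers of this growth), for almost all vectors `α ∈ ℝ^d` the following is true for
ALL data simultaneously: for all finite `T ⊇ T₀(K, f, c)` and all levels `N`, for all but finitely many `n` weak approximation of
level `N` at `T` in all coordinates holds for the variety `V_k : N_{Kᵢ/ℚ}(zᵢ) = cᵢ (f(t) + k) ≠ 0`, `k = ⌊a_n(α)⌋`, under the
condition at the real place. If all `cᵢ` are `1` and the degree of `f` is prime to those of the `Kᵢ` (and odd, or `-1` is a norm
from all `Kᵢ`) then `T₀` is empty.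

Proof: the starting theorem `CyclicNormForms` (all but `X / (log X) ^ U` of the `|k| ≤ X`) and the starting library `N918/MS`.
-/

set_option autoImplicit false

namespace Pool.Agent.Results.MP_83e36b_nt.LinearFormsOfAlmostAllVectors

open Filter MvPolynomial NumberField MeasureTheory
open Pool.Agent.T63.WA (Data Good Special)

/-- **Weak approximation for the integer parts of linear forms, for almost all vectors.** Here `L` is the `m`-th cyclotomic
field. -/
theorem result (m : ℕ) [NeZero m] (L : Type) [Field L] [NumberField L] [IsCyclotomicExtension {m} ℚ L] :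
    ∃ T₀ : ∀ {r s : ℕ}, (Fin r → IntermediateField ℚ L) → MvPolynomial (Fin s) ℤ → (Fin r → ℤ) → Finset Nat.Primes,
      (∀ (r s : ℕ) (K : Fin r → IntermediateField ℚ L) (f : MvPolynomial (Fin s) ℤ) (c : Fin r → ℤ),
        Special K f c → T₀ K f c = ∅) ∧
      ∀ (d : ℕ) (a : ℕ → Fin d → ℝ) (δ : ℝ), 0 < δ → (∀ᶠ n : ℕ in atTop, Real.exp ((n : ℝ) ^ δ) ≤ ‖a n‖) →
        ∀ᵐ α : Fin d → ℝ, ∀ x : Data L, x.Conditions → T₀ x.K x.f x.c ⊆ x.T →
          ∀ᶠ n in atTop, Good x ⌊∑ j, a n j * α j⌋ := by
  obtain ⟨T₀, h1, h2⟩ := Pool.Agent.T63.WA.main m L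
  refine ⟨T₀, h1, fun d a δ hδ ha => ?_⟩
  filter_upwards [h2.linear d a δ hδ ha] with α hα x hx hT
  exact hα ⟨x, hx, hT⟩

end Pool.Agent.Results.MP_83e36b_nt.LinearFormsOfAlmostAllVectors
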