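import Pool.Agent.T63.WA.Base

/-!
# Weak approximation on the varieties `N_{Kᵢ/ℚ}(zᵢ) = cᵢ (f(t) + k)`, `Kᵢ` cyclic, for `k = ⌊a_n α⌋`, ANY separated sequence

Let `f` be an integral polynomial of degree at least two in any number of variables, let the `cᵢ` be nonzero integers, and let
the `Kᵢ` be cyclic number fields (subfields of a given cyclotomic field) with class numbers prime to their degrees, such that
`-1` is a norm or all norms are nonnegative. There are finite sets `T₀(K, f, c)` of primes such that for ANY sequence of real
numbers `a_0, a_1, …` with mutual distances at least `δ > 0`, in any order (for instance any sequence of different integers, of any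
rate of growth), and for almost all real `α` the following is true for ALL data simultaneously: for all finite `T ⊇ T₀(K, f, c)`,
all levels `N` and all `U`, for all large `M`, for all but `M / (log M) ^ U` of the `n < M` weak approximation of level `N` at `T` in
all coordinates holds for the variety `V_k : N_{Kᵢ/ℚ}(zᵢ) = cᵢ (f(t) + k) ≠ 0`, `k = ⌊a_n α⌋`, under the condition at the real
place. If all `cᵢ` are `1` and the degree of `f` is prime to those of the `Kᵢ` (and odd, or `-1` is a norm from all `Kᵢ`) then
`T₀` is empty.

Proof: the starting theorem `CyclicNormForms` (all but `X / (log X) ^ U` of the `|k| ≤ X`) and the starting library `N918/MS`.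
-/

set_option autoImplicit false

namespace Pool.Agent.Results.MP_83e36b_nt.MultiplesOfSeparatedSequences

open Filter MvPolynomial NumberField MeasureTheory
open Pool.Agent.T63.WA (Data Good Special)

/-- **Weak approximation for the integer parts of the multiples of any separated sequence.** Here `L` is the `m`-th
cyclotomic field. -/
theorem result (m : ℕ) [NeZero m] (L : Type) [Field L] [NumberField L] [IsCyclotomicExtension {m} ℚ L] :
    ∃ T₀ : ∀ {r s : ℕ}, (Fin r → IntermediateField ℚ L) → MvPolynomial (Fin s) ℤ → (Fin r → ℤ) → Finset Nat.Primes,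
      (∀ (r s : ℕ) (K : Fin r → IntermediateField ℚ L) (f : MvPolynomial (Fin s) ℤ) (c : Fin r → ℤ),
        Special K f c → T₀ K f c = ∅) ∧
      ∀ (a : ℕ → ℝ) (δ : ℝ), 0 < δ → (∀ m n, m ≠ n → δ ≤ |a m - a n|) →
        ∀ᵐ α : ℝ, ∀ x : Data L, x.Conditions → T₀ x.K x.f x.c ⊆ x.T →
          ∀ U : ℕ, ∀ᶠ M : ℕ in atTop,
            ({n : ℕ | n < M ∧ ¬ Good x ⌊a n * α⌋}.ncard : ℝ) ≤ M / Real.log M ^ U := by
  obtain ⟨T₀, h1, h2⟩ := Pool.Agent.T63.WA.main m L
  refine ⟨T₀, h1, fun a δ hδ ha => ?_⟩
  filter_upwards [h2.separated a δ hδ ha] with α hα x hx hT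
  exact hα ⟨x, hx, hT⟩

end Pool.Agent.Results.MP_83e36b_nt.MultiplesOfSeparatedSequences
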