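import Pool.Agent.T63.WA.Base

/-!
# Weak approximation on the varieties `N_{Kᵢ/ℚ}(zᵢ) = cᵢ (f(t) + k)`, `Kᵢ` cyclic, for random integers `k` of any dependence

Let `f` be an integral polynomial of degree at least two in any number of variables, let the `cᵢ` be nonzero integers, and let
the `Kᵢ` be cyclic number fields (subfields of a given cyclotomic field) with class numbers prime to their degrees, such that
`-1` is a norm or all norms are nonnegative. There are finite sets `T₀(K, f, c)` of primes such that for every sequence `X_n` of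
random integers, of ANY dependence, with `P (X_n = k) ≤ C / (|k| + 1)` and a convergent sum of the probabilities of
`|X_n| < exp (n ^ δ)` (so that they may take their values in a sequence of windows `|k| ~ exp (n ^ δ)`, and only
`(log X) ^ (1 / δ)` values below `X` occur), almost surely the following is true for ALL data simultaneously: for all finite
`T ⊇ T₀(K, f, c)` and all levels `N`, for all but finitely many `n` weak approximation of level `N` at `T` in all coordinates holds
for the variety `V_k : N_{Kᵢ/ℚ}(zᵢ) = cᵢ (f(t) + k) ≠ 0`, `k = X_n`, under the condition at the real place. If all `cᵢ` are `1` and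
the degree of `f` is prime to those of the `Kᵢ` (and odd, or `-1` is a norm from all `Kᵢ`) then `T₀` is empty.

Proof: the starting theorem `CyclicNormForms` (all but `X / (log X) ^ U` of the `|k| ≤ X`) and the starting library `N918/MS`.
-/

set_option autoImplicit false

namespace Pool.Agent.Results.MP_83e36b_nt.RandomIntegers

open Filter MvPolynomial NumberField MeasureTheory
open scoped ENNReal
open Pool.Agent.T63.WA (Data Good Special)

/-- **Weak approximation for random integers of any dependence.** Here `L` is the `m`-th cyclotomic field. -/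
theorem result (m : ℕ) [NeZero m] (L : Type) [Field L] [NumberField L] [IsCyclotomicExtension {m} ℚ L] :
    ∃ T₀ : ∀ {r s : ℕ}, (Fin r → IntermediateField ℚ L) → MvPolynomial (Fin s) ℤ → (Fin r → ℤ) → Finset Nat.Primes,
      (∀ (r s : ℕ) (K : Fin r → IntermediateField ℚ L) (f : MvPolynomial (Fin s) ℤ) (c : Fin r → ℤ),
        Special K f c → T₀ K f c = ∅) ∧
      ∀ (Ω : Type) [MeasurableSpace Ω] (μ : Measure Ω) [IsProbabilityMeasure μ] (X : ℕ → Ω → ℤ) (C δ : ℝ), 0 < δ →
        (∀ n, Measurable (X n)) → (∀ n (k : ℤ), μ {ω | X n ω = k} ≤ ENNReal.ofReal (C / (|(k : ℝ)| + 1))) →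
        ∑' n : ℕ, μ {ω | |(X n ω : ℝ)| < Real.exp ((n : ℝ) ^ δ)} ≠ ∞ →
        ∀ᵐ ω ∂μ, ∀ x : Data L, x.Conditions → T₀ x.K x.f x.c ⊆ x.T → ∀ᶠ n in atTop, Good x (X n ω) := by
  obtain ⟨T₀, h1, h2⟩ := Pool.Agent.T63.WA.main m L
  refine ⟨T₀, h1, fun Ω _ μ _ X C δ hδ hX hC hs => ?_⟩
  filter_upwards [h2.random Ω μ X C δ hδ hX hC hs] with ω hω x hx hT
  exact hω ⟨x, hx, hT⟩

end Pool.Agent.Results.MP_83e36b_nt.RandomIntegers
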