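import Pool.Agent.T63.WA.Base

/-!
# Weak approximation on the varieties `N_{Kᵢ/ℚ}(zᵢ) = cᵢ (f(t) + k)`, `Kᵢ` cyclic, for integer parts `k` of steep functions

Let `f` be an integral polynomial of degree at least two in any number of variables, let the `cᵢ` be nonzero integers, and let
the `Kᵢ` be cyclic number fields (subfields of a given cyclotomic field) with class numbers prime to their degrees, such that
`-1` is a norm or all norms are nonnegative. There are finite sets `T₀(K, f, c)` of primes such that for every sequence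
`h_0, h_1, …` of differentiable functions on an interval with `|h_n'| ≥ c₁ |h_n|` and `|h_n| ≥ exp (n ^ δ)` for large `n`,
`c₁, δ > 0` (for instance `h_n(x) = ξ x ^ (v_n)`, `Γ(n x)`, `exp (n ^ x)` or iterates of `exp`), for almost all `x` in the interval the
following is true for ALL data simultaneously: for all finite `T ⊇ T₀(K, f, c)` and all levels `N`, for all but finitely many `n`
weak approximation of level `N` at `T` in all coordinates holds for the variety `V_k : N_{Kᵢ/ℚ}(zᵢ) = cᵢ (f(t) + k) ≠ 0`,
`k = ⌊h_n(x)⌋`, under the condition at the real place. If all `cᵢ` are `1` and the degree of `f` is prime to those of the `Kᵢ`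
(and odd, or `-1` is a norm from all `Kᵢ`) then `T₀` is empty.

Proof: the starting theorem `CyclicNormForms` (all but `X / (log X) ^ U` of the `|k| ≤ X`) and the starting library `N918/MS`.
-/

set_option autoImplicit false

namespace Pool.Agent.Results.MP_83e36b_nt.SteepFunctions

open Filter MvPolynomial NumberField MeasureTheory
open Pool.Agent.T63.WA (Data Good Special)

/-- **Weak approximation for the integer parts of steep functions, for almost all arguments.** Here `L` is the `m`-th
cyclotomic field. -/
theorem result (m : ℕ) [NeZero m] (L : Type) [Field L] [NumberField L] [IsCyclotomicExtension {m} ℚ L] :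
    ∃ T₀ : ∀ {r s : ℕ}, (Fin r → IntermediateField ℚ L) → MvPolynomial (Fin s) ℤ → (Fin r → ℤ) → Finset Nat.Primes,
      (∀ (r s : ℕ) (K : Fin r → IntermediateField ℚ L) (f : MvPolynomial (Fin s) ℤ) (c : Fin r → ℤ),
        Special K f c → T₀ K f c = ∅) ∧
      ∀ (A B c₁ δ : ℝ) (h : ℕ → ℝ → ℝ), 0 < c₁ → 0 < δ → (∀ᶠ n : ℕ in atTop, ∀ x ∈ Set.Icc A B,
        DifferentiableAt ℝ (h n) x ∧ c₁ * |h n x| ≤ |deriv (h n) x| ∧ Real.exp ((n : ℝ) ^ δ) ≤ |h n x|) →
        ∀ᵐ y : ℝ, y ∈ Set.Icc A B → ∀ x : Data L, x.Conditions → T₀ x.K x.f x.c ⊆ x.T →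
          ∀ᶠ n in atTop, Good x ⌊h n y⌋ := by
  obtain ⟨T₀, h1, h2⟩ := Pool.Agent.T63.WA.main m L
  refine ⟨T₀, h1, fun A B c₁ δ h hc hδ hh => ?_⟩
  filter_upwards [h2.steep A B c₁ δ h hc hδ hh] with y hy hyI x hx hT
  exact hy hyI ⟨x, hx, hT⟩

end Pool.Agent.Results.MP_83e36b_nt.SteepFunctions
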